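import Pool.Agent.H99.EQ.Final
import Pool.Agent.H98.EQ.Classical

/-!
MP_c1d796_mp, Q1, both settings: the answer is no.

Setting (a) (Berezin-Toeplitz operators, `M = ℝ⁶/ℤ⁶`): `Pool/Agent/H99/EQ` (definitions in
`Stmt.lean` and `Defs.lean`) and `Pool/Agent/H72/BT`. Setting (b) (semiclassical pseudo-differential operators on
`X = T²`): `Pool/Agent/H98/EQ` (definitions in `Defs.lean`).
-/

set_option autoImplicit false

namespace Pool.Agent.Results.MP_c1d796_mp.ExactQuantisationFails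

/-- (a) There is a classical integrable system `(p₁, p₂, p₃)` on the torus `M = ℝ⁶/ℤ⁶` such that
there are no self-adjoint Berezin-Toeplitz operators `P₁, P₂, P₃` with principal symbols
`p₁, p₂, p₃` which commute for every `k ≥ 1`.
(b) There is a classical integrable system `(p₁, p₂)` on `T*T²`, `p₁, p₂ ∈ S²`, such that there are
no semiclassical pseudo-differential operators `P₁, P₂` with principal symbols `p₁, p₂` which are
self-adjoint and commute strongly for every `ħ ∈ (0, ħ₀]`. -/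
theorem result :
    (∃ p : Fin 3 → H99.EQ.Ph 3 → ℝ, H99.BTQ.IsClassical p ∧ ¬ H99.BTQ.IsQuantised p) ∧
    (∃ p₁ p₂ : Pool.H98.EQ.R2 → Pool.H98.EQ.R2 → ℝ, Pool.H98.EQ.IsClassical p₁ p₂ ∧
      Pool.H98.EQ.IsSymbol 2 (fun x ξ => ((p₁ x ξ : ℝ) : ℂ)) ∧
      Pool.H98.EQ.IsSymbol 2 (fun x ξ => ((p₂ x ξ : ℝ) : ℂ)) ∧
      ¬ Pool.H98.EQ.HasQuantisation p₁ p₂) :=
  ⟨H99.EQ.main_stmt, Pool.H98.EQ.main_exact⟩

end Pool.Agent.Results.MP_c1d796_mp.ExactQuantisationFails
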