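import Pool.Agent.H98.EQ.Classical

/-!
Setting (b), the negated form of Q1, on `X = T²`, in a strong form: a classical integrable system
`(p₁, p₂)` on `T^*T²` with `p₁, p₂ ∈ S²(T^*T²)` which is not the pair of principal symbols of any
pair of symmetric semiclassical pseudo-differential operators commuting (weakly on `C^∞(T²)`)
modulo `O(ħ⁴)`; in particular it is not quantised by self-adjoint, strongly commuting operators
(`Pool.H98.EQ.main_exact`).

The system is explicit and real-analytic (see `Pool.Agent.H98.EQ.Sys`): with `s = sin(x/2)`,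
`c = cos(x/2)`, `U = sin u`, `Q = 24(c⁴+s⁴) + scU(3+4s²)`,
`p₁ = sin³(u) η + B ξ`, `p₂ = G ξ²`,
`B = 6 s c² cos(u) (768 s²c + 320 sc²U + 40 c³U² + sU³)/Q`, `G = 1152 s c⁶ (6s+cU)⁵/Q²`.
The obstruction sits at the point `x = u = ξ = η = 0` and appears at order `ħ³` in the
commutation relation.
-/

namespace Pool.Agent.Results.MP_c1d796_mp.NoFormalQuantisationTorus

open Pool.H98.EQ

theorem result : ∃ p₁ p₂ : R2 → R2 → ℝ, IsClassical p₁ p₂ ∧
    IsSymbol 2 (fun x ξ => ((p₁ x ξ : ℝ) : ℂ)) ∧ IsSymbol 2 (fun x ξ => ((p₂ x ξ : ℝ) : ℂ)) ∧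
    ¬ HasWeakQuantisation p₁ p₂ :=
  main

end Pool.Agent.Results.MP_c1d796_mp.NoFormalQuantisationTorus
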